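import Mathlib

set_option autoImplicit false

namespace Pool.Agent.Results.MP_2af528_co.Counter

/-- a family of pairwise disjoint intervals covering `S` -/
def IsIntervalPartition {S : Type} [PartialOrder S] (P : Finset (Set S)) : Prop :=
  (∀ B ∈ P, ∃ x y, x ≤ y ∧ B = Set.Icc x y) ∧
  (∀ B ∈ P, ∀ C ∈ P, B ≠ C → Disjoint B C) ∧ ∀ z, ∃ B ∈ P, z ∈ B

/-- an interval partition with the least number of blocks -/
def IsOptimum {S : Type} [PartialOrder S] (P : Finset (Set S)) : Prop :=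
  IsIntervalPartition P ∧ ∀ Q : Finset (Set S), IsIntervalPartition Q → P.card ≤ Q.card

/-- the example: 0 bottom; 1 below 3,4,5; 2 below 6,7,8; 9 above 3,4,5,2; 10 above 6,7,8,1 -/
def rel (a b : Fin 11) : Bool :=
  a == b || a == 0 || (a == 1 && (b == 3 || b == 4 || b == 5 || b == 9 || b == 10)) ||
  (a == 2 && (b == 6 || b == 7 || b == 8 || b == 9 || b == 10)) ||
  ((a == 3 || a == 4 || a == 5) && b == 9) || ((a == 6 || a == 7 || a == 8) && b == 10)

structure V where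
  v : Fin 11
deriving DecidableEq, Fintype

instance : PartialOrder V where
  le a b := rel a.v b.v = true
  le_refl := by decide
  le_trans := by decide
  le_antisymm := by decide

instance : DecidableLE V := fun a b => inferInstanceAs (Decidable (rel a.v b.v = true))

theorem four (P : Finset (Set V)) (h : IsIntervalPartition P) (t a b c : V)
    (hB : Set.Icc ⟨0⟩ t ∈ P) (ha : ¬ a ≤ t) (hb : ¬ b ≤ t) (hc : ¬ c ≤ t)
    (h1 : ∀ u, u ≤ a → u ≤ b → u ≤ t) (h2 : ∀ u, u ≤ a → u ≤ c → u ≤ t)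
    (h3 : ∀ u, u ≤ b → u ≤ c → u ≤ t) : 4 ≤ P.card := by
  classical
  have z : ∀ u : V, (⟨0⟩ : V) ≤ u := by decide
  obtain ⟨A, hA, a1⟩ := h.2.2 a
  obtain ⟨B, hB', b1⟩ := h.2.2 b
  obtain ⟨C, hC, c1⟩ := h.2.2 c
  have key : ∀ D ∈ P, ∀ p q, p ∈ D → q ∈ D → ¬ p ≤ t → (∀ u, u ≤ p → u ≤ q → u ≤ t) → False := by
    intro D hD p q hp hq hn hu
    obtain ⟨x, y, hxy, rfl⟩ := h.1 D hD
    by_cases e : Set.Icc x y = Set.Icc ⟨0⟩ t
    · exact hn (e ▸ hp).2
    · exact Set.disjoint_left.1 (h.2.1 _ hD _ hB e) ⟨le_rfl, hxy⟩ ⟨z _, hu x hp.1 hq.1⟩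
  have n1 : Set.Icc ⟨0⟩ t ≠ A := fun e => ha (e ▸ a1).2
  have n2 : Set.Icc ⟨0⟩ t ≠ B := fun e => hb (e ▸ b1).2
  have n3 : Set.Icc ⟨0⟩ t ≠ C := fun e => hc (e ▸ c1).2
  have n4 : A ≠ B := fun e => key A hA a b a1 (e ▸ b1) ha h1
  have n5 : A ≠ C := fun e => key A hA a c a1 (e ▸ c1) ha h2
  have n6 : B ≠ C := fun e => key B hB' b c b1 (e ▸ c1) hb h3
  have : ({Set.Icc ⟨0⟩ t, A, B, C} : Finset (Set V)).card = 4 := by
    rw [Finset.card_insert_of_notMem (by simp [n1, n2, n3]),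
      Finset.card_insert_of_notMem (by simp [n4, n5]), Finset.card_pair n6]
  rw [← this]
  refine Finset.card_le_card fun D hD => ?_
  simp only [Finset.mem_insert, Finset.mem_singleton] at hD
  rcases hD with rfl | rfl | rfl | rfl <;> assumption

theorem result : ∃ (S : Type) (_ : Fintype S) (_ : Nonempty S) (_ : PartialOrder S),
    ∀ P : Finset (Set S), IsOptimum P →
      ¬ ∃ x y, IsMin x ∧ IsMax y ∧ x ≤ y ∧ Set.Icc x y ∈ P := by
  classical
  refine ⟨V, inferInstance, ⟨⟨0⟩⟩, inferInstance, ?_⟩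
  rintro P ⟨hP, hopt⟩ ⟨x, y, hx, hy, _, hm⟩
  have h3 := hopt {Set.Icc ⟨0⟩ ⟨0⟩, Set.Icc ⟨1⟩ ⟨9⟩, Set.Icc ⟨2⟩ ⟨10⟩} ⟨by
      intro B hB
      simp only [Finset.mem_insert, Finset.mem_singleton] at hB
      rcases hB with rfl | rfl | rfl
      · exact ⟨_, _, by decide, rfl⟩
      · exact ⟨_, _, by decide, rfl⟩
      · exact ⟨_, _, by decide, rfl⟩, by
      intro B hB C hC hne
      simp only [Finset.mem_insert, Finset.mem_singleton] at hB hC
      rcases hB with rfl | rfl | rfl <;> rcases hC with rfl | rfl | rfl <;>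
        first
        | exact absurd rfl hne
        | (rw [Set.disjoint_left]; simp only [Set.mem_Icc]; decide), by
      simp only [Finset.mem_insert, Finset.mem_singleton, exists_eq_or_imp, exists_eq_left,
        Set.mem_Icc]
      decide⟩
  have h4 := h3.trans Finset.card_le_three
  have z : ∀ u : V, (⟨0⟩ : V) ≤ u := by decide
  have ex : x = ⟨0⟩ := le_antisymm (hx (z x)) (z x)
  have ey : y = ⟨9⟩ ∨ y = ⟨10⟩ := by
    have : ∀ y : V, (∀ b, y ≤ b → b ≤ y) → y = ⟨9⟩ ∨ y = ⟨10⟩ := by decide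
    exact this y fun b hb => hy hb
  subst ex
  rcases ey with rfl | rfl
  · have := four P hP _ ⟨6⟩ ⟨7⟩ ⟨8⟩ hm (by decide) (by decide) (by decide) (by decide)
      (by decide) (by decide)
    omega
  · have := four P hP _ ⟨3⟩ ⟨4⟩ ⟨5⟩ hm (by decide) (by decide) (by decide) (by decide)
      (by decide) (by decide)
    omega

end Pool.Agent.Results.MP_2af528_co.Counter
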